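import Pool.Agent.H16.KISS.Main

/-! Kissing configurations in dimension five with many antipodal pairs: the numerical conclusions -/

set_option autoImplicit false

namespace Pool.Agent.H16.KISS

open Finset

theorem ip_eq_inner (x y : E5) : ip x y = inner ℝ x y := by
  rw [PiLp.inner_apply, ip]
  exact Finset.sum_congr rfl fun i _ => by simp [mul_comm]

theorem ip_self_of_norm {x : E5} (h : ‖x‖ = 1) : ip x x = 1 := by
  rw [ip_eq_inner, real_inner_self_eq_norm_sq, h, one_pow]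

theorem ip_le_of_dist {x y : E5} (hx : ‖x‖ = 1) (hy : ‖y‖ = 1) (h : 1 ≤ dist x y) :
    ip x y ≤ 1 / 2 := by
  rw [dist_eq_norm] at h
  have h1 := norm_sub_sq_real x y
  rw [hx, hy, ← ip_eq_inner] at h1
  have h2 : 1 ≤ ‖x - y‖ ^ 2 := by nlinarith [norm_nonneg (x - y)]
  linarith

theorem bounds (A : Finset E5) (hu : ∀ x ∈ A, ‖x‖ = 1)
    (hd : ∀ x ∈ A, ∀ y ∈ A, x ≠ y → 1 ≤ dist x y) (b s : ℕ)
    (hb : b = (A.filter fun x => -x ∈ A).card) (hs : s = (A.filter fun x => ¬ -x ∈ A).card) :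
    b ≤ 42 ∧ s * (559 * (42 - b) + 640 * b) ≤ 27225 * (42 - b) := by
  have h1 : ∀ x ∈ A, ip x x = 1 := fun x hx => ip_self_of_norm (hu x hx)
  have h2 : ∀ x ∈ A, ∀ y ∈ A, x ≠ y → ip x y ≤ 1 / 2 := fun x hx y hy hxy =>
    ip_le_of_dist (hu x hx) (hu y hy) (hd x hx y hy hxy)
  have key : ∀ r : ℝ, 0 ≤ r → 0 ≤ (s : ℝ) * (1089 / 512) - 559 / 12800 * (s : ℝ) ^ 2 -
      r * s * b / 10 + r ^ 2 * b * (42 - b) / 20 := fun r hr =>
    main_ineq h1 h2 s b r (by rw [hb]) (by rw [hs]) hr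
  have hs0 : (0 : ℝ) ≤ s := Nat.cast_nonneg s
  have hb0 : (0 : ℝ) ≤ b := Nat.cast_nonneg b
  have hb42 : b ≤ 42 := by
    by_contra hlt
    have hb43 : (43 : ℝ) ≤ b := by exact_mod_cast (by omega : 43 ≤ b)
    have k := key (s + 1) (by linarith)
    have k1 : ((s : ℝ) + 1) ^ 2 * b * (42 - b) / 20 ≤ -((s + 1) ^ 2 * 43 / 20) := by
      have k2 : (b : ℝ) * (42 - b) ≤ -43 := by nlinarith
      have k3 : (0 : ℝ) ≤ (s + 1) ^ 2 := sq_nonneg _
      nlinarith
    have k4 : (0 : ℝ) ≤ (s + 1) * s * b / 10 := by positivity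
    nlinarith
  refine ⟨hb42, ?_⟩
  rcases Nat.lt_or_ge b 42 with hlt | hge
  · obtain ⟨c, hc⟩ : ∃ c : ℕ, c + b = 42 := ⟨42 - b, by omega⟩
    have hc0 : 0 < c := by omega
    have hcb : 42 - b = c := by omega
    rw [hcb]
    have hcr : (0 : ℝ) < c := by exact_mod_cast hc0
    have hbr : (42 : ℝ) - b = c := by
      have : ((c + b : ℕ) : ℝ) = 42 := by rw [hc]; norm_num
      push_cast at this
      linarith
    have k := key (s / c) (by positivity)
    rw [hbr] at k
    have k1 : (s : ℝ) * (1089 / 512) - 559 / 12800 * (s : ℝ) ^ 2 - s / c * s * b / 10 +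
        (s / c) ^ 2 * b * c / 20 =
        s * (27225 * c - s * (559 * c + 640 * b)) / (12800 * c) := by
      field_simp
      ring
    rw [k1] at k
    have k2 : (0 : ℝ) ≤ s * (27225 * c - s * (559 * c + 640 * b)) := by
      have h3 : (0 : ℝ) < 12800 * c := by positivity
      by_contra hneg
      rw [not_le] at hneg
      have := div_neg_of_neg_of_pos hneg h3
      linarith
    rcases Nat.eq_zero_or_pos s with hz | hpos
    · rw [hz]; simp
    · have hsr : (0 : ℝ) < s := by exact_mod_cast hpos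
      have k3 : (0 : ℝ) ≤ 27225 * c - s * (559 * c + 640 * b) := nonneg_of_mul_nonneg_right k2 hsr
      have k4 : ((s * (559 * c + 640 * b) : ℕ) : ℝ) ≤ ((27225 * c : ℕ) : ℝ) := by
        push_cast
        linarith
      exact_mod_cast k4
  · have hbe : b = 42 := by omega
    have k := key 1 zero_le_one
    rw [hbe] at k
    push_cast at k
    have hz : s = 0 := by
      rcases Nat.eq_zero_or_pos s with h | h
      · exact h
      · have hsr : (1 : ℝ) ≤ s := by exact_mod_cast h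
        nlinarith
    rw [hz]
    simp

end Pool.Agent.H16.KISS
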