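import Pool.Agent.H16.KISS.Psd

/-! # Kissing configurations in dimension five with many antipodal pairs -/

set_option autoImplicit false

namespace Pool.Agent.H16.KISS

open Finset

variable {A : Finset E5}

theorem ip_comm (x y : E5) : ip x y = ip y x := by
  unfold ip
  exact Finset.sum_congr rfl fun i _ => mul_comm _ _

theorem ip_neg (x y : E5) : ip x (-y) = -ip x y := by
  simp [ip, Finset.sum_neg_distrib]

/-- the even kernel -/
noncomputable def ev (t : ℝ) : ℝ := 7 / 5 * t ^ 4 - 7 / 20 * t ^ 2 - 1 / 20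

/-- the odd kernel (used on the points without antipode) -/
noncomputable def od (t : ℝ) : ℝ :=
  t ^ 2 * (t ^ 3 - 3 / 7 * t) + 1697 / 2800 * (t ^ 3 - 3 / 7 * t) + (5091 / 19600 - 603 / 6400) * t

theorem psd_ev (h1 : ∀ x ∈ A, ip x x = 1) : Psd A (fun x y => ev (ip x y)) := by
  refine (((psd_three h1).mul_ip.smul (c := 7 / 5) (by norm_num)).add
    ((psd_two h1).smul (c := 1 / 4) (by norm_num))).congr fun x _ y _ => ?_
  unfold ev
  ring

theorem psd_od (h1 : ∀ x ∈ A, ip x x = 1) : Psd A (fun x y => od (ip x y)) := by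
  refine ((((psd_three h1).mul_ip.mul_ip).add
    ((psd_three h1).smul (c := 1697 / 2800) (by norm_num))).add
    (psd_ip.smul (c := 5091 / 19600 - 603 / 6400) (by norm_num))).congr fun x _ y _ => ?_
  unfold od
  ring

theorem ev_add_od (t : ℝ) :
    ev t + od t = (t - 1 / 2) * (t ^ 2 + 19 / 20 * t + 9 / 80) ^ 2 - 559 / 12800 := by
  unfold ev od
  ring

theorem ev_eq (t : ℝ) : ev t = 7 / 5 * (t ^ 2 * (t ^ 2 - 1 / 4)) - 1 / 20 := by
  unfold ev
  ring

theorem ev_le {t : ℝ} (h : t ≤ 1 / 2) (h' : -t ≤ 1 / 2) : ev t ≤ -1 / 20 := by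
  rw [ev_eq]
  have h2 : t ^ 2 - 1 / 4 ≤ 0 := by nlinarith
  have h3 : t ^ 2 * (t ^ 2 - 1 / 4) ≤ 0 := mul_nonpos_of_nonneg_of_nonpos (sq_nonneg t) h2
  linarith

/-- the main inequality, with a free weight `r` for the antipodal part -/
theorem main_ineq (h1 : ∀ x ∈ A, ip x x = 1) (h2 : ∀ x ∈ A, ∀ y ∈ A, x ≠ y → ip x y ≤ 1 / 2)
    (s b r : ℝ) (hb : b = ((A.filter fun x => -x ∈ A).card : ℝ))
    (hs : s = ((A.filter fun x => ¬ -x ∈ A).card : ℝ)) (hr : 0 ≤ r) :
    0 ≤ s * (1089 / 512) - 559 / 12800 * s ^ 2 - r * s * b / 10 + r ^ 2 * b * (42 - b) / 20 := by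
  classical
  obtain ⟨B, hB⟩ : ∃ B, B = A.filter fun x => -x ∈ A := ⟨_, rfl⟩
  obtain ⟨S, hS⟩ : ∃ S, S = A.filter fun x => ¬ -x ∈ A := ⟨_, rfl⟩
  rw [← hB] at hb
  rw [← hS] at hs
  have hBA : ∀ x ∈ B, x ∈ A ∧ -x ∈ A := fun x hx => by
    rw [hB, Finset.mem_filter] at hx; exact hx
  have hSA : ∀ x ∈ S, x ∈ A ∧ -x ∉ A := fun x hx => by
    rw [hS, Finset.mem_filter] at hx; exact hx
  have hBn : ∀ x ∈ B, -x ∈ B := fun x hx => by
    rw [hB, Finset.mem_filter, neg_neg]
    exact ⟨(hBA x hx).2, (hBA x hx).1⟩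
  -- the weighted even kernel
  have e1 := psd_ev h1 (fun x => if -x ∈ A then r else 1)
  have split : ∀ f : E5 → ℝ, ∑ x ∈ A, f x = ∑ x ∈ B, f x + ∑ x ∈ S, f x := fun f => by
    rw [hB, hS, Finset.sum_filter_add_sum_filter_not]
  have e2 : ∑ x ∈ A, ∑ y ∈ A, (if -x ∈ A then r else 1) * (if -y ∈ A then r else 1) *
        ev (ip x y) =
      (∑ x ∈ B, ∑ y ∈ B, r ^ 2 * ev (ip x y) + ∑ x ∈ B, ∑ y ∈ S, r * ev (ip x y)) +
        (∑ x ∈ S, ∑ y ∈ B, r * ev (ip x y) + ∑ x ∈ S, ∑ y ∈ S, ev (ip x y)) := by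
    rw [split, ← Finset.sum_add_distrib, ← Finset.sum_add_distrib]
    congr 1
    · refine Finset.sum_congr rfl fun x hx => ?_
      rw [split]
      congr 1
      · refine Finset.sum_congr rfl fun y hy => ?_
        rw [if_pos (hBA x hx).2, if_pos (hBA y hy).2]; ring
      · refine Finset.sum_congr rfl fun y hy => ?_
        rw [if_pos (hBA x hx).2, if_neg (hSA y hy).2]; ring
    · refine Finset.sum_congr rfl fun x hx => ?_
      rw [split]
      congr 1
      · refine Finset.sum_congr rfl fun y hy => ?_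
        rw [if_neg (hSA x hx).2, if_pos (hBA y hy).2]; ring
      · refine Finset.sum_congr rfl fun y hy => ?_
        rw [if_neg (hSA x hx).2, if_neg (hSA y hy).2]; ring
  rw [e2] at e1
  -- the odd kernel
  have e3 := psd_od (A := S) (fun x hx => h1 x (hSA x hx).1) (fun _ => 1)
  simp only [one_mul] at e3
  -- both, on `S`
  have f1 : ∑ x ∈ S, ∑ y ∈ S, ev (ip x y) + ∑ x ∈ S, ∑ y ∈ S, od (ip x y) ≤
      s * (1089 / 512 - 559 / 12800 * s) := by
    rw [← Finset.sum_add_distrib]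
    have g : ∀ x ∈ S, ∑ y ∈ S, ev (ip x y) + ∑ y ∈ S, od (ip x y) ≤
        1089 / 512 - 559 / 12800 * s := by
      intro x hx
      rw [← Finset.sum_add_distrib]
      have g1 : ∑ y ∈ S, (ev (ip x y) + od (ip x y)) =
          ∑ y ∈ S, (ip x y - 1 / 2) * (ip x y ^ 2 + 19 / 20 * ip x y + 9 / 80) ^ 2 -
            559 / 12800 * s := by
        rw [Finset.sum_congr rfl (fun y _ => ev_add_od (ip x y)), Finset.sum_sub_distrib,
          Finset.sum_const, nsmul_eq_mul, hs]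
        ring
      rw [g1, ← Finset.add_sum_erase S _ hx, h1 x (hSA x hx).1]
      have g2 : ∑ y ∈ S.erase x,
          (ip x y - 1 / 2) * (ip x y ^ 2 + 19 / 20 * ip x y + 9 / 80) ^ 2 ≤ 0 := by
        refine Finset.sum_nonpos fun y hy => ?_
        rw [Finset.mem_erase] at hy
        have := h2 x (hSA x hx).1 y (hSA y hy.2).1 (Ne.symm hy.1)
        exact mul_nonpos_of_nonpos_of_nonneg (by linarith) (sq_nonneg _)
      norm_num at g2 ⊢
      linarith
    refine (Finset.sum_le_sum g).trans_eq ?_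
    rw [Finset.sum_const, nsmul_eq_mul, hs]
  -- mixed terms
  have hmix : ∀ x ∈ S, ∀ y ∈ B, ev (ip x y) ≤ -1 / 20 := by
    intro x hx y hy
    have n1 : x ≠ y := fun h => (hSA x hx).2 (h ▸ (hBA y hy).2)
    have n2 : x ≠ -y := fun h => (hSA x hx).2 (by rw [h, neg_neg]; exact (hBA y hy).1)
    have a1 := h2 x (hSA x hx).1 y (hBA y hy).1 n1
    have a2 := h2 x (hSA x hx).1 (-y) (hBA y hy).2 n2
    rw [ip_neg] at a2
    exact ev_le a1 a2
  have f2 : ∑ x ∈ S, ∑ y ∈ B, r * ev (ip x y) ≤ s * b * (r * (-1 / 20)) := by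
    have g : ∀ x ∈ S, ∑ y ∈ B, r * ev (ip x y) ≤ b * (r * (-1 / 20)) := by
      intro x hx
      refine (Finset.sum_le_sum fun y hy =>
        mul_le_mul_of_nonneg_left (hmix x hx y hy) hr).trans_eq ?_
      rw [Finset.sum_const, nsmul_eq_mul, hb]
    refine (Finset.sum_le_sum g).trans_eq ?_
    rw [Finset.sum_const, nsmul_eq_mul, hs]
    ring
  have f3 : ∑ x ∈ B, ∑ y ∈ S, r * ev (ip x y) ≤ s * b * (r * (-1 / 20)) := by
    rw [Finset.sum_comm]
    refine le_trans (le_of_eq ?_) f2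
    exact Finset.sum_congr rfl fun x _ => Finset.sum_congr rfl fun y _ => by rw [ip_comm]
  -- the antipodal part
  have f4 : ∑ x ∈ B, ∑ y ∈ B, r ^ 2 * ev (ip x y) ≤ b * (r ^ 2 * (21 / 10 - b / 20)) := by
    have g : ∀ x ∈ B, ∑ y ∈ B, r ^ 2 * ev (ip x y) ≤ r ^ 2 * (21 / 10 - b / 20) := by
      intro x hx
      rw [← Finset.mul_sum]
      refine mul_le_mul_of_nonneg_left ?_ (sq_nonneg r)
      have g1 : ∑ y ∈ B, ev (ip x y) =
          ∑ y ∈ B, 7 / 5 * (ip x y ^ 2 * (ip x y ^ 2 - 1 / 4)) - b / 20 := by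
        rw [Finset.sum_congr rfl (fun y _ => ev_eq (ip x y)), Finset.sum_sub_distrib,
          Finset.sum_const, nsmul_eq_mul, hb]
        ring
      have hne : -x ≠ x := by
        intro h
        have k1 := h1 x (hBA x hx).1
        have k2 := ip_neg x x
        rw [h, k1] at k2
        norm_num at k2
      rw [g1, ← Finset.add_sum_erase B _ hx,
        ← Finset.add_sum_erase (B.erase x) _ (Finset.mem_erase.mpr ⟨hne, hBn x hx⟩), ip_neg,
        h1 x (hBA x hx).1]
      have g2 : ∑ y ∈ (B.erase x).erase (-x), 7 / 5 * (ip x y ^ 2 * (ip x y ^ 2 - 1 / 4)) ≤ 0 := by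
        refine Finset.sum_nonpos fun y hy => ?_
        rw [Finset.mem_erase, Finset.mem_erase] at hy
        have a1 := h2 x (hBA x hx).1 y (hBA y hy.2.2).1 (Ne.symm hy.2.1)
        have a2 := h2 x (hBA x hx).1 (-y) (hBA y hy.2.2).2
          (fun h => hy.1 (by rw [h, neg_neg]))
        rw [ip_neg] at a2
        have a3 := ev_le a1 a2
        rw [ev_eq] at a3
        linarith
      norm_num at g2 ⊢
      linarith
    refine (Finset.sum_le_sum g).trans_eq ?_
    rw [Finset.sum_const, nsmul_eq_mul, hb]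
  nlinarith [e1, e3, f1, f2, f3, f4]

end Pool.Agent.H16.KISS
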