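import Mathlib

/-! # Kissing configurations in dimension five: positive semidefinite kernels of degree at most five -/

set_option autoImplicit false

namespace Pool.Agent.H16.KISS

/-- five-dimensional Euclidean space -/
abbrev E5 : Type := EuclideanSpace ℝ (Fin 5)

/-- the standard inner product -/
def ip (x y : E5) : ℝ := ∑ i, x i * y i

/-- a kernel is positive semidefinite on the finite set `X` -/
def Psd (X : Finset E5) (K : E5 → E5 → ℝ) : Prop :=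
  ∀ w : E5 → ℝ, 0 ≤ ∑ x ∈ X, ∑ y ∈ X, w x * w y * K x y

variable {X : Finset E5}

theorem Psd.add {K L : E5 → E5 → ℝ} (hK : Psd X K) (hL : Psd X L) :
    Psd X (fun x y => K x y + L x y) := by
  intro w
  have h := add_nonneg (hK w) (hL w)
  rw [← Finset.sum_add_distrib] at h
  refine h.trans_eq (Finset.sum_congr rfl fun x _ => ?_)
  rw [← Finset.sum_add_distrib]
  exact Finset.sum_congr rfl fun y _ => by ring

theorem Psd.smul {K : E5 → E5 → ℝ} (hK : Psd X K) {c : ℝ} (hc : 0 ≤ c) :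
    Psd X (fun x y => c * K x y) := by
  intro w
  have h := mul_nonneg hc (hK w)
  rw [Finset.mul_sum] at h
  refine h.trans_eq (Finset.sum_congr rfl fun x _ => ?_)
  rw [Finset.mul_sum]
  exact Finset.sum_congr rfl fun y _ => by ring

theorem Psd.congr {K L : E5 → E5 → ℝ} (hK : Psd X K)
    (h : ∀ x ∈ X, ∀ y ∈ X, L x y = K x y) : Psd X L := by
  intro w
  refine (hK w).trans_eq (Finset.sum_congr rfl fun x hx => Finset.sum_congr rfl fun y hy => ?_)
  rw [h x hx y hy]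

theorem psd_feat {ι : Type*} (I : Finset ι) (c : ι → ℝ) (hc : ∀ i ∈ I, 0 ≤ c i)
    (f : ι → E5 → ℝ) : Psd X (fun x y => ∑ i ∈ I, c i * (f i x * f i y)) := by
  intro w
  have h : ∑ x ∈ X, ∑ y ∈ X, w x * w y * ∑ i ∈ I, c i * (f i x * f i y) =
      ∑ i ∈ I, c i * (∑ x ∈ X, w x * f i x) ^ 2 := by
    simp only [Finset.mul_sum, pow_two, Finset.sum_mul]
    rw [Finset.sum_comm]
    rw [Finset.sum_congr rfl (fun y _ => Finset.sum_comm)]
    rw [Finset.sum_comm]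
    refine Finset.sum_congr rfl fun i _ => Finset.sum_congr rfl fun y _ =>
      Finset.sum_congr rfl fun x _ => ?_
    ring
  rw [h]
  exact Finset.sum_nonneg fun i hi => mul_nonneg (hc i hi) (sq_nonneg _)

theorem Psd.mul_ip {K : E5 → E5 → ℝ} (hK : Psd X K) :
    Psd X (fun x y => ip x y * K x y) := by
  intro w
  have h : ∑ a : Fin 5, ∑ x ∈ X, ∑ y ∈ X, (w x * x a) * (w y * y a) * K x y =
      ∑ x ∈ X, ∑ y ∈ X, w x * w y * (ip x y * K x y) := by
    rw [Finset.sum_comm]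
    refine Finset.sum_congr rfl fun x _ => ?_
    rw [Finset.sum_comm]
    refine Finset.sum_congr rfl fun y _ => ?_
    rw [ip, Finset.sum_mul, Finset.mul_sum]
    refine Finset.sum_congr rfl fun a _ => ?_
    ring
  rw [← h]
  exact Finset.sum_nonneg fun a _ => hK (fun x => w x * x a)

theorem psd_ip : Psd X ip := by
  refine (psd_feat (X := X) (Finset.univ : Finset (Fin 5)) (fun _ => (1 : ℝ))
    (fun _ _ => zero_le_one) (fun i x => x i)).congr ?_
  intro x _ y _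
  simp [ip]

/-- degree two -/
theorem psd_two (h1 : ∀ x ∈ X, ip x x = 1) : Psd X (fun x y => ip x y ^ 2 - 1 / 5) := by
  refine ((psd_feat (X := X) Finset.univ (fun _ : Fin 5 × Fin 5 => (1 / 10 : ℝ))
    (fun _ _ => by norm_num) (fun i x => x i.1 ^ 2 - x i.2 ^ 2)).add
    (psd_feat (X := X) (Finset.univ.filter fun i : Fin 5 × Fin 5 => i.1 ≠ i.2)
      (fun _ => (1 : ℝ)) (fun _ _ => zero_le_one) (fun i x => x i.1 * x i.2))).congr ?_
  intro x hx y hy
  have e : ip x y ^ 2 - 1 / 5 * (ip x x * ip y y) =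
      ∑ i : Fin 5 × Fin 5, 1 / 10 * ((x i.1 ^ 2 - x i.2 ^ 2) * (y i.1 ^ 2 - y i.2 ^ 2)) +
      ∑ i ∈ Finset.univ.filter (fun i : Fin 5 × Fin 5 => i.1 ≠ i.2),
        (1 : ℝ) * (x i.1 * x i.2 * (y i.1 * y i.2)) := by
    rw [Finset.sum_filter]
    simp only [Fintype.sum_prod_type, Fin.sum_univ_five, ip]
    norm_num [Fin.ext_iff]
    ring
  rw [h1 x hx, h1 y hy] at e
  rw [← e]
  ring

/-- degree three -/
theorem psd_three (h1 : ∀ x ∈ X, ip x x = 1) :
    Psd X (fun x y => ip x y ^ 3 - 3 / 7 * ip x y) := by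
  refine (((psd_feat (X := X) (Finset.univ.filter fun i : Fin 5 × Fin 5 => i.1 ≠ i.2)
      (fun _ => (1 / 7 : ℝ)) (fun _ _ => by norm_num)
      (fun i x => x i.1 ^ 3 - 3 * x i.2 ^ 2 * x i.1)).add
    (psd_feat (X := X) (Finset.univ.filter fun i : Fin 5 × Fin 5 × Fin 5 =>
        i.1 ≠ i.2.1 ∧ i.1 ≠ i.2.2) (fun _ => (3 / 14 : ℝ)) (fun _ _ => by norm_num)
      (fun i x => x i.1 * (x i.2.1 ^ 2 - x i.2.2 ^ 2)))).add
    (psd_feat (X := X) (Finset.univ.filter fun i : Fin 5 × Fin 5 × Fin 5 =>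
        i.1 ≠ i.2.1 ∧ i.1 ≠ i.2.2 ∧ i.2.1 ≠ i.2.2) (fun _ => (1 : ℝ)) (fun _ _ => zero_le_one)
      (fun i x => x i.1 * x i.2.1 * x i.2.2))).congr ?_
  intro x hx y hy
  have e : ip x y ^ 3 - 3 / 7 * (ip x y * (ip x x * ip y y)) =
      ∑ i ∈ Finset.univ.filter (fun i : Fin 5 × Fin 5 => i.1 ≠ i.2),
        1 / 7 * ((x i.1 ^ 3 - 3 * x i.2 ^ 2 * x i.1) * (y i.1 ^ 3 - 3 * y i.2 ^ 2 * y i.1)) +
      ∑ i ∈ Finset.univ.filter (fun i : Fin 5 × Fin 5 × Fin 5 => i.1 ≠ i.2.1 ∧ i.1 ≠ i.2.2),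
        3 / 14 * ((x i.1 * (x i.2.1 ^ 2 - x i.2.2 ^ 2)) *
          (y i.1 * (y i.2.1 ^ 2 - y i.2.2 ^ 2))) +
      ∑ i ∈ Finset.univ.filter (fun i : Fin 5 × Fin 5 × Fin 5 =>
          i.1 ≠ i.2.1 ∧ i.1 ≠ i.2.2 ∧ i.2.1 ≠ i.2.2),
        (1 : ℝ) * ((x i.1 * x i.2.1 * x i.2.2) * (y i.1 * y i.2.1 * y i.2.2)) := by
    rw [Finset.sum_filter, Finset.sum_filter, Finset.sum_filter]
    simp only [Fintype.sum_prod_type, Fin.sum_univ_five, ip]
    norm_num [Fin.ext_iff]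
    ring
  rw [h1 x hx, h1 y hy] at e
  rw [← e]
  ring

end Pool.Agent.H16.KISS
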